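import Pool.Agent.H.MP_1bdfda_lc.Fwd
import Pool.Agent.H.MP_1bdfda_lc.Back
import Pool.Agent.H.MP_1bdfda_lc.Alg

/-!
# CIS circulants are recognizable in polynomial time

The recognition problem for circulants in which every maximal clique meets every maximal stable
set is solvable in polynomial time.
-/

namespace Pool.Agent.Results.MP_1bdfda_lc.CisCircInP

open Pool.Agent.Cis

/-- An instance of CIS-CIRC: an integer `n ≥ 1` and a set `D ⊆ {1, …, n - 1}` such that `d ∈ D`
implies `n - d ∈ D`. -/
structure Inst where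
  n : ℕ
  pos : 1 ≤ n
  D : Finset ℕ
  sub : ∀ d ∈ D, 1 ≤ d ∧ d < n
  symm : ∀ d ∈ D, n - d ∈ D

namespace Inst

variable (x : Inst)

instance : NeZero x.n := ⟨by have := x.pos; omega⟩

/-- The circulant `C_n(D)`: distinct vertices `i`, `j` of `ℤ/n` are adjacent iff
`(i - j) mod n ∈ D` (here `ZMod.val` is the representative in `{0, …, n - 1}`). -/
def graph : SimpleGraph (ZMod x.n) where
  Adj i j := i ≠ j ∧ (i - j).val ∈ x.D
  symm := ⟨by
    rintro i j ⟨h1, h2⟩
    refine ⟨h1.symm, ?_⟩
    have h3 := x.symm _ h2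
    have h4 : (j - i).val = x.n - (i - j).val := by
      rw [← neg_sub i j, ZMod.neg_val, if_neg (sub_ne_zero.2 h1)]
    rwa [h4]⟩
  loopless := ⟨fun i h => h.1 rfl⟩

/-- `C_n(D)` is CIS: every maximal clique meets every maximal stable set. -/
def CIS : Prop := ∀ C S : Set (ZMod x.n), Maximal x.graph.IsClique C →
  Maximal x.graph.IsIndepSet S → (C ∩ S).Nonempty

/-- The code of the instance: the characteristic sequence of `D`, a bit string of length
`n - 1`. -/
def encode : List Bool := (List.range (x.n - 1)).map fun i => decide (i + 1 ∈ x.D)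

lemma length_encode : x.encode.length + 1 = x.n := by
  have := x.pos
  simp only [encode, List.length_map, List.length_range]
  omega

lemma getD_encode {i : ℕ} (hi : i + 1 < x.n) :
    x.encode.getD i false = true ↔ i + 1 ∈ x.D := by
  have h1 : i < x.encode.length := by
    have := x.length_encode
    omega
  rw [List.getD_eq_getElem _ _ h1]
  simp [encode]

/-- The connection set as a subset of `ℤ/n`. -/
def E : Set (ZMod x.n) := {d | d.val ∈ x.D}

lemma mem_E (d : ZMod x.n) :
    d ∈ x.E ↔ d ≠ 0 ∧ x.encode.getD (d.val - 1) false = true := by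
  have h0 : d ∈ x.E ↔ d.val ∈ x.D := Iff.rfl
  rw [h0]
  have h1 := ZMod.val_lt d
  constructor
  · intro h
    have h2 := (x.sub _ h).1
    refine ⟨fun h3 => ?_, ?_⟩
    · rw [h3, ZMod.val_zero] at h2
      omega
    · rw [x.getD_encode (by omega)]
      rwa [Nat.sub_add_cancel h2]
  · rintro ⟨h2, h3⟩
    have h4 : 1 ≤ d.val := Nat.one_le_iff_ne_zero.2 fun h => h2 ((ZMod.val_eq_zero d).1 h)
    rw [x.getD_encode (by omega), Nat.sub_add_cancel h4] at h3
    exact h3

lemma conn_E : Conn x.E := by
  refine ⟨fun h => ((x.mem_E 0).1 h).1 rfl, fun d hd => ?_⟩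
  have h1 := ((x.mem_E d).1 hd).1
  have h2 : (-d).val ∈ x.D := by
    rw [ZMod.neg_val, if_neg h1]
    exact x.symm _ hd
  exact h2

lemma graph_eq : x.graph = SimpleGraph.circulantGraph x.E := by
  ext i j
  rw [circ_adj x.conn_E]
  constructor
  · intro h
    exact h.2
  · intro h
    refine ⟨fun h1 => ?_, h⟩
    rw [h1, sub_self] at h
    exact x.conn_E.1 h

end Inst

/-- The code determines the instance. -/
theorem encode_injective : Function.Injective Inst.encode := by
  intro x y h
  have hn : x.n = y.n := by rw [← x.length_encode, ← y.length_encode, h]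
  have hD : x.D = y.D := by
    ext d
    constructor
    · intro hd
      have h1 := x.sub d hd
      have h2 := (x.getD_encode (i := d - 1) (by omega)).2 (by rwa [Nat.sub_add_cancel h1.1])
      rw [h, y.getD_encode (by omega), Nat.sub_add_cancel h1.1] at h2
      exact h2
    · intro hd
      have h1 := y.sub d hd
      have h2 := (y.getD_encode (i := d - 1) (by omega)).2 (by rwa [Nat.sub_add_cancel h1.1])
      rw [← h, x.getD_encode (by omega), Nat.sub_add_cancel h1.1] at h2
      exact h2
  obtain ⟨n, p, D, h1, h2⟩ := x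
  obtain ⟨n', p', D', h1', h2'⟩ := y
  simp only at hn hD
  subst hn
  subst hD
  rfl

/-- The combinatorial characterization. -/
lemma cis_iff {n : ℕ} [NeZero n] {D : Set (ZMod n)} (hD : Conn D) :
    IsCIS (SimpleGraph.circulantGraph D) ↔ GcdClosed D ∧ GoodE D ∧ GoodE (co D) :=
  ⟨fun h => ⟨gcdClosed_of_cis hD h, goodE_of_cis hD h⟩, fun h => cis_of_goodE hD h.1 h.2.1 h.2.2⟩

/-- The instance coded by a bit string. -/
def ofBits (w : List Bool) (hw : ∀ d ∈ conn w, -d ∈ conn w) : Inst where
  n := w.length + 1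
  pos := Nat.le_add_left 1 _
  D := (Finset.range (w.length + 1)).filter fun d => 1 ≤ d ∧ w.getD (d - 1) false = true
  sub := by
    intro d hd
    rw [Finset.mem_filter, Finset.mem_range] at hd
    exact ⟨hd.2.1, hd.1⟩
  symm := by
    intro d hd
    rw [Finset.mem_filter, Finset.mem_range] at hd ⊢
    have hv : ((d : ℕ) : ZMod (w.length + 1)).val = d := ZMod.val_cast_of_lt hd.1
    have hne : ((d : ℕ) : ZMod (w.length + 1)) ≠ 0 := by
      intro h
      rw [← ZMod.val_eq_zero, hv] at h
      omega
    have h1 : ((d : ℕ) : ZMod (w.length + 1)) ∈ conn w := by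
      refine ⟨hne, ?_⟩
      rw [hv]
      exact hd.2.2
    have h2 := hw _ h1
    have h3 := h2.2
    rw [ZMod.neg_val, if_neg hne, hv] at h3
    exact ⟨by omega, by omega, h3⟩

lemma encode_ofBits (w : List Bool) (hw : ∀ d ∈ conn w, -d ∈ conn w) :
    (ofBits w hw).encode = w := by
  refine List.ext_getElem ?_ fun i h1 h2 => ?_
  · have := (ofBits w hw).length_encode
    have h : (ofBits w hw).n = w.length + 1 := rfl
    omega
  · simp only [Inst.encode, ofBits, List.getElem_map, List.getElem_range, Finset.mem_filter,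
      Finset.mem_range]
    rw [Nat.add_sub_cancel, List.getD_eq_getElem _ _ h2]
    have h3 : i + 1 < w.length + 1 := by omega
    cases hb : w[i] <;> simp [h3]

/-- **CIS-CIRC is in P.**

There is a function `f` on bit strings that is computed in polynomial time (in Mathlib's model of
Turing machines with stacks) such that `f w` is `true` exactly when `w` is the code of an instance
`(n, D)` whose circulant `C_n(D)` is CIS. -/
theorem result :
    ∃ f : List Bool → Bool,
      Nonempty (Turing.TM2ComputableInPolyTime (fun w : List Bool => w)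
        Computability.encodeBool f) ∧
      ∀ w : List Bool, f w = true ↔ ∃ x : Inst, x.encode = w ∧ x.CIS := by
  obtain ⟨dec, hP, hdec⟩ := exists_dec
  refine ⟨dec, hP.tm2_raw_bool, fun w => ?_⟩
  have key : ∀ (m : ℕ) [NeZero m] (D : Set (ZMod m)), w.length + 1 = m →
      (∀ d, d ∈ D ↔ d ≠ 0 ∧ w.getD (d.val - 1) false = true) →
      (dec w = true ↔ (∀ d ∈ D, -d ∈ D) ∧ IsCIS (SimpleGraph.circulantGraph D)) := by
    intro m _ D hm hD
    subst hm
    have h1 : D = conn w := Set.ext hD
    subst h1
    rw [hdec]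
    constructor
    · rintro ⟨h2, h3⟩
      refine ⟨h2, (cis_iff ⟨fun h => h.1 rfl, h2⟩).2 h3⟩
    · rintro ⟨h2, h3⟩
      exact ⟨h2, (cis_iff ⟨fun h => h.1 rfl, h2⟩).1 h3⟩
  have key2 : ∀ x : Inst, x.encode = w → (dec w = true ↔ x.CIS) := by
    intro x hx
    have h1 := key x.n x.E (by rw [← hx]; exact x.length_encode) (by
      intro d
      rw [← hx]
      exact x.mem_E d)
    rw [h1, ← x.graph_eq]
    exact ⟨fun h => h.2, fun h => ⟨x.conn_E.2, h⟩⟩
  constructor
  · intro h
    have h1 := ((hdec w).1 h).1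
    exact ⟨ofBits w h1, encode_ofBits w h1, (key2 _ (encode_ofBits w h1)).1 h⟩
  · rintro ⟨x, hx, hc⟩
    exact (key2 x hx).2 hc

end Pool.Agent.Results.MP_1bdfda_lc.CisCircInP
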